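import Mathlib
import Pool.Agent.Helper11_PGL.StmtB

/-!
# ULTRAFAM: infinitely many pointed homomorphisms of bounded height give a formal family
-/

open PGH Polynomial PGL Filter
open scoped IntermediateField

universe u v

namespace PGL33

/-! ### heights and orders -/

section Heights

variable {k K : Type*} [Field k] [IsAlgClosed k] [CharZero k] [Field K] [Algebra k K] [FF k K]

theorem neg_ord_le_ht (P : Place k K) (y : K) : - P.ord y ≤ ht k y := by
  have h := sum_poles_le (L := k) y {P}
  rw [Finset.sum_singleton] at h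
  exact (le_max_right _ _).trans h

theorem ord_le_ht (P : Place k K) (y : K) : P.ord y ≤ ht k y := by
  have h := neg_ord_le_ht P y⁻¹
  rwa [P.ord_inv, neg_neg, ht_inv] at h

theorem ht_smul_le (c : k) (y : K) : ht k (c • y) ≤ ht k y := by
  rw [Algebra.smul_def]
  have := ht_mul_le (L := k) (algebraMap k K c) y
  rwa [ht_const, zero_add] at this

theorem ht_sub_le (a b : K) : ht k (a - b) ≤ ht k a + ht k b := by
  have h1 : a - b = a + (-1 : k) • b := by rw [neg_one_smul]; ring
  rw [h1]
  exact (ht_add_le _ _).trans (Nat.add_le_add_left (ht_smul_le _ _) _)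

theorem exists_ht_bound (W : Submodule k K) [FiniteDimensional k W] :
    ∃ H : ℕ, ∀ y ∈ W, ht k y ≤ H := by
  let β := Module.finBasis k W
  refine ⟨∑ j, ht k (β j : K), fun y hy => ?_⟩
  have h1 := congrArg (Subtype.val : W → K) (β.sum_repr ⟨y, hy⟩)
  have h2 : y = ∑ j, β.repr ⟨y, hy⟩ j • (β j : K) := by
    rw [Submodule.coe_sum] at h1
    exact h1.symm
  rw [h2]
  exact (ht_sum_le _ _).trans (Finset.sum_le_sum fun j _ => ht_smul_le _ _)

end Heights

/-! ### limits of power series -/

/-- the ultraproduct of power series, coefficient by coefficient -/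
noncomputable def lim (k : Type*) [Field k] : (ℕ → PowerSeries k) →+* PowerSeries (Lst k) where
  toFun f := PowerSeries.mk fun j => Lst.mk k fun n => PowerSeries.coeff j (f n)
  map_one' := by
    ext j
    rw [PowerSeries.coeff_mk, PowerSeries.coeff_one]
    split_ifs with h
    · rw [← map_one (Lst.mk k)]
      congr 1
      funext n
      rw [Pi.one_apply, PowerSeries.coeff_one, if_pos h]
      rfl
    · rw [← map_zero (Lst.mk k)]
      congr 1
      funext n
      rw [Pi.one_apply, PowerSeries.coeff_one, if_neg h]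
      rfl
  map_zero' := by
    ext j
    rw [PowerSeries.coeff_mk, map_zero, ← map_zero (Lst.mk k)]
    congr 1
  map_add' f g := by
    ext j
    rw [map_add, PowerSeries.coeff_mk, PowerSeries.coeff_mk, PowerSeries.coeff_mk, ← map_add]
    congr 1
  map_mul' f g := by
    ext j
    rw [PowerSeries.coeff_mk, PowerSeries.coeff_mul]
    simp only [PowerSeries.coeff_mk, ← map_mul]
    rw [← map_sum]
    congr 1
    funext n
    rw [Pi.mul_apply, PowerSeries.coeff_mul, Finset.sum_apply]
    rfl

theorem coeff_lim {k : Type*} [Field k] (f : ℕ → PowerSeries k) (j : ℕ) :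
    PowerSeries.coeff j (lim k f) = Lst.mk k fun n => PowerSeries.coeff j (f n) := by
  simp [lim]

theorem lim_const {k : Type*} [Field k] (w : PowerSeries k) :
    lim k (fun _ => w) = PowerSeries.map (algebraMap k (Lst k)) w := by
  ext j
  rw [coeff_lim, PowerSeries.coeff_map, Lst.algebraMap_eq]

theorem lim_C {k : Type*} [Field k] (c : ℕ → k) :
    lim k (fun n => PowerSeries.C (c n)) = PowerSeries.C (Lst.mk k c) := by
  ext j
  rw [coeff_lim]
  rw [PowerSeries.coeff_C]
  split_ifs with h
  · congr 1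
    funext n
    rw [PowerSeries.coeff_C, if_pos h]
  · rw [← map_zero (Lst.mk k)]
    congr 1
    funext n
    rw [PowerSeries.coeff_C, if_neg h]
    rfl

/-- ULTRAFAM -/
theorem ultraFam (hT : TaylorStmt.{u}) : UltraFamStmt.{u} := by
  classical
  intro k K R _ _ _ _ _ _ _ _ A₀ F₁ P₀ x₀ B ψ hfin hgen hinf
  obtain ⟨τ, hτC, hτadd, hτord, hτalg⟩ := hT k K P₀
  let φ : ℕ → R →ₐ[k] K := fun n => (hinf.natEmbedding _ n : R →ₐ[k] K)
  have hφinj : Function.Injective φ := fun a b hab =>
    (hinf.natEmbedding _).injective (Subtype.ext hab)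
  have hφ : ∀ n r, P₀.Ge 1 (φ n r - algebraMap k K (x₀ r)) := fun n => (hinf.natEmbedding _ n).2.1
  have hφB : ∀ n, ∀ a ∈ A₀, ht k (φ n a) ≤ B a := fun n => (hinf.natEmbedding _ n).2.2.1
  have hφF : ∀ n, ∀ t ∈ F₁, φ n t = ψ t := fun n => (hinf.natEmbedding _ n).2.2.2
  have hφ0 : ∀ n r, P₀.Ge 0 (φ n r) := fun n r => P₀.ge_zero_of_res (hφ n r)
  have hτ0 : τ 0 = 0 := by
    have := hτC 0
    rwa [map_zero, map_zero] at this
  have hτ1 : τ 1 = 1 := by
    have := hτC 1
    rwa [map_one, map_one] at this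
  have hτsub : ∀ x y, P₀.Ge 0 x → P₀.Ge 0 y → τ (x - y) = τ x - τ y := by
    intro x y hx hy
    have h1 := (hτadd (x - y) y (hx.sub hy) hy).1
    rw [sub_add_cancel] at h1
    rw [h1]
    ring
  have hτsum : ∀ {ι : Type} (s : Finset ι) (c : ι → k) (w : ι → K), (∀ i, P₀.Ge 0 (w i)) →
      τ (∑ i ∈ s, c i • w i) = ∑ i ∈ s, PowerSeries.C (c i) * τ (w i) := by
    intro ι s c w hw
    induction s using Finset.induction_on with
    | empty => simpa using hτ0
    | insert a s ha ih =>
      rw [Finset.sum_insert ha, Finset.sum_insert ha, ← ih,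
        (hτadd _ _ ((hw a).smul _) (Place.Ge.sum fun i _ => (hw i).smul _)).1, Algebra.smul_def,
        (hτadd _ _ (P₀.ge_const _) (hw a)).2, hτC]
  -- the family
  let Ψ : R →ₐ[k] PowerSeries (Lst k) :=
    { toFun := fun r => lim k (fun n => τ (φ n r))
      map_one' := by
        rw [← map_one (lim k)]
        congr 1
        funext n
        rw [map_one, hτ1]
        rfl
      map_zero' := by
        rw [← map_zero (lim k)]
        congr 1
        funext n
        rw [map_zero, hτ0]
        rfl
      map_add' := by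
        intro a b
        rw [← map_add (lim k)]
        congr 1
        funext n
        rw [map_add, (hτadd _ _ (hφ0 n a) (hφ0 n b)).1]
        rfl
      map_mul' := by
        intro a b
        rw [← map_mul (lim k)]
        congr 1
        funext n
        rw [map_mul, (hτadd _ _ (hφ0 n a) (hφ0 n b)).2]
        rfl
      commutes' := by
        intro c
        have h1 : (fun n => τ (φ n (algebraMap k R c))) = fun _ => PowerSeries.C c := by
          funext n
          rw [AlgHom.commutes, hτC]
        rw [h1, lim_const, PowerSeries.map_C, PowerSeries.algebraMap_apply] }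
  have hΨ : ∀ r, Ψ r = lim k (fun n => τ (φ n r)) := fun r => rfl
  refine ⟨Ψ, ?_, ?_, ?_, ?_⟩
  · -- constant terms
    intro r
    rw [← PowerSeries.coeff_zero_eq_constantCoeff_apply, hΨ, coeff_lim, Lst.algebraMap_eq]
    congr 1
    funext n
    have h1 := (hτord _ ((hφ n r).mono (by norm_num : (0 : ℤ) ≤ 1)) 1).1 (hφ n r)
    rw [pow_one, hτsub _ _ (hφ0 n r) (P₀.ge_const _), hτC] at h1
    rw [PowerSeries.X_dvd_iff, map_sub, PowerSeries.constantCoeff_C, sub_eq_zero] at h1
    rw [PowerSeries.coeff_zero_eq_constantCoeff_apply, h1]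
  · -- base
    intro t ht
    refine ⟨τ (ψ t), ?_⟩
    rw [hΨ, ← lim_const]
    congr 1
    funext n
    rw [hφF n t ht]
  · -- rationality
    intro a ha
    obtain ⟨W, hW, hWB⟩ := exists_space_of_ht_le k K (B a)
    obtain ⟨H, hH⟩ := exists_ht_bound W
    have h1 : ∀ n, ∃ p q : W, (q : K) ≠ 0 ∧ φ n a = p / q := by
      intro n
      obtain ⟨p, hp, q, hq, hq0, hpq⟩ := hWB (φ n a) (hφB n a ha)
      exact ⟨⟨p, hp⟩, ⟨q, hq⟩, hq0, hpq⟩
    choose p q hq0 hpq using h1
    obtain ⟨π, hπ0, hπ⟩ := P₀.exists_unif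
    have hge : ∀ y ∈ W, P₀.Ge 0 (π ^ H * y) := by
      intro y hy
      by_cases hy0 : y = 0
      · rw [hy0, mul_zero]; exact P₀.ge_zero _
      rw [P₀.ge_iff (mul_ne_zero (pow_ne_zero _ hπ0) hy0), P₀.ord_mul (pow_ne_zero _ hπ0) hy0,
        P₀.ord_pow, hπ]
      have h2 := neg_ord_le_ht P₀ y
      have h3 := hH y hy
      have h4 : (ht k y : ℤ) ≤ H := by exact_mod_cast h3
      linarith
    let β := Module.finBasis k W
    have hsum : ∀ y : W, π ^ H * (y : K) = ∑ j, β.repr y j • (π ^ H * (β j : K)) := by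
      intro y
      have h5 := congrArg (Subtype.val : W → K) (β.sum_repr y)
      rw [Submodule.coe_sum] at h5
      conv_lhs => rw [← h5]
      rw [Finset.mul_sum]
      refine Finset.sum_congr rfl fun j _ => ?_
      rw [Submodule.coe_smul, mul_smul_comm]
    have hlimsum : ∀ y : ℕ → W, lim k (fun n => τ (π ^ H * (y n : K))) =
        ∑ j, PowerSeries.C (Lst.mk k (fun n => β.repr (y n) j)) *
          PowerSeries.map (algebraMap k (Lst k)) (τ (π ^ H * (β j : K))) := by
      intro y
      have h6 : (fun n => τ (π ^ H * (y n : K))) =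
          ∑ j, (fun n => PowerSeries.C (β.repr (y n) j)) * (fun _ => τ (π ^ H * (β j : K))) := by
        funext n
        rw [hsum, hτsum _ _ _ (fun j => hge _ (β j).2), Finset.sum_apply]
        rfl
      rw [h6, map_sum]
      refine Finset.sum_congr rfl fun j _ => ?_
      rw [map_mul, lim_C, lim_const]
    refine ⟨_, fun j => Lst.mk k (fun n => β.repr (p n) j),
      fun j => Lst.mk k (fun n => β.repr (q n) j), fun j => τ (π ^ H * (β j : K)),
      fun j => hτalg _ (hge _ (β j).2), ?_, ?_⟩
    · rw [← hlimsum]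
      intro h0
      have h7 : ∀ j, ∀ᶠ n in (hyperfilter ℕ : Ultrafilter ℕ),
          PowerSeries.coeff j (τ (π ^ H * (q n : K))) = 0 := by
        intro j
        have h8 := congrArg (PowerSeries.coeff j) h0
        rw [coeff_lim, map_zero, Lst.mk_eq_zero] at h8
        exact h8
      have h9 : ∀ᶠ n in (hyperfilter ℕ : Ultrafilter ℕ), ∀ j ∈ Finset.range (2 * H + 1),
          PowerSeries.coeff j (τ (π ^ H * (q n : K))) = 0 := by
        rw [eventually_all_finset]
        exact fun j _ => h7 j
      obtain ⟨n, hn⟩ := h9.exists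
      have h10 : P₀.Ge ((2 * H + 1 : ℕ) : ℤ) (π ^ H * (q n : K)) := by
        rw [hτord _ (hge _ (q n).2), PowerSeries.X_pow_dvd_iff]
        intro m hm
        exact hn m (Finset.mem_range.2 hm)
      rw [P₀.ge_iff (mul_ne_zero (pow_ne_zero _ hπ0) (hq0 n)),
        P₀.ord_mul (pow_ne_zero _ hπ0) (hq0 n), P₀.ord_pow, hπ] at h10
      have h2 := ord_le_ht P₀ (q n : K)
      have h3 := hH _ (q n).2
      have h4 : (ht k (q n : K) : ℤ) ≤ H := by exact_mod_cast h3
      push_cast at h10
      linarith
    · rw [← hlimsum, ← hlimsum, hΨ, ← map_mul]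
      congr 1
      funext n
      rw [Pi.mul_apply, ← (hτadd _ _ (hge _ (q n).2) (hφ0 n a)).2, hpq n]
      congr 1
      rw [mul_assoc, mul_div_cancel₀ _ (hq0 n)]
  · -- the family is not constant
    by_contra hcon
    push Not at hcon
    have hcon' : ∀ a : R, ∀ j : ℕ, ∃ c : k, a ∈ A₀ →
        PowerSeries.coeff j (Ψ a) = algebraMap k (Lst k) c := by
      intro a j
      by_cases ha : a ∈ A₀
      · obtain ⟨c, hc⟩ := hcon a ha j
        exact ⟨c, fun _ => hc⟩
      · exact ⟨0, fun h => absurd h ha⟩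
    choose c hc using hcon'
    have hev : ∀ᶠ n in (hyperfilter ℕ : Ultrafilter ℕ), ∀ a ∈ A₀,
        ∀ j ∈ Finset.range (B a + B a + 1), PowerSeries.coeff j (τ (φ n a)) = c a j := by
      rw [eventually_all_finite hfin]
      intro a ha
      rw [eventually_all_finset]
      intro j _
      have h1 := hc a j ha
      rw [hΨ, coeff_lim, Lst.algebraMap_eq, Lst.mk_eq] at h1
      exact h1
    have hinf2 : {n | ∀ a ∈ A₀,
        ∀ j ∈ Finset.range (B a + B a + 1), PowerSeries.coeff j (τ (φ n a)) = c a j}.Infinite := by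
      intro hf
      exact notMem_hyperfilter_of_finite hf hev
    obtain ⟨n, hn, m, hm, hnm⟩ := hinf2.nontrivial
    apply hnm
    apply hφinj
    apply hgen.ext
    intro a ha
    by_contra hne
    have hne' : φ n a - φ m a ≠ 0 := sub_ne_zero.2 hne
    have h1 : P₀.Ge ((B a + B a + 1 : ℕ) : ℤ) (φ n a - φ m a) := by
      rw [hτord _ ((hφ0 n a).sub (hφ0 m a)), PowerSeries.X_pow_dvd_iff]
      intro j hj
      rw [hτsub _ _ (hφ0 n a) (hφ0 m a), map_sub, hn a ha j (Finset.mem_range.2 hj),
        hm a ha j (Finset.mem_range.2 hj), sub_self]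
    rw [P₀.ge_iff hne'] at h1
    have h2 := ord_le_ht P₀ (φ n a - φ m a)
    have h3 := ht_sub_le (k := k) (φ n a) (φ m a)
    have h4 := hφB n a ha
    have h5 := hφB m a ha
    have h6 : (ht k (φ n a - φ m a) : ℤ) ≤ B a + B a := by exact_mod_cast h3.trans (by omega)
    push_cast at h1
    linarith

end PGL33
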