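import Mathlib

/-!
# Restriction of a polynomial to a line, and a linear change of coordinates
-/

open Polynomial

universe u v

namespace PGL33

variable {k : Type u} [Field k]

/-- restriction of a polynomial to the line `b + T w` -/
noncomputable def lineHom {σ : Type*} (b w : σ → k) : MvPolynomial σ k →ₐ[k] k[X] :=
  MvPolynomial.aeval (fun l => C (b l) + C (w l) * X)

theorem lineHom_monomial_aux {σ : Type*} (b w : σ → k) (m : σ →₀ ℕ) :
    (m.prod fun l e => (C (b l) + C (w l) * X : k[X]) ^ e).natDegree ≤ m.degree ∧
    (m.prod fun l e => (C (b l) + C (w l) * X : k[X]) ^ e).coeff m.degree =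
      m.prod fun l e => w l ^ e := by
  classical
  have hlin : ∀ l, (C (b l) + C (w l) * X : k[X]).natDegree ≤ 1 := by
    intro l
    compute_degree
  induction m using Finsupp.induction with
  | zero => simp
  | single_add l e m hl he ih =>
    have h1 : ((Finsupp.single l e + m).prod fun l e => (C (b l) + C (w l) * X : k[X]) ^ e) =
        (C (b l) + C (w l) * X) ^ e * m.prod fun l e => (C (b l) + C (w l) * X : k[X]) ^ e := by
      rw [Finsupp.prod_add_index', Finsupp.prod_single_index]
      · simp
      · simp
      · intro a b₁ b₂; rw [pow_add]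
    have h2 : ((Finsupp.single l e + m).prod fun l e => w l ^ e) =
        w l ^ e * m.prod fun l e => w l ^ e := by
      rw [Finsupp.prod_add_index', Finsupp.prod_single_index]
      · simp
      · simp
      · intro a b₁ b₂; rw [pow_add]
    have h3 : (Finsupp.single l e + m).degree = e + m.degree := by
      rw [map_add, Finsupp.degree_single]
    have h4 : ((C (b l) + C (w l) * X : k[X]) ^ e).natDegree ≤ e := by
      have := natDegree_pow_le_of_le e (hlin l)
      simpa using this
    rw [h1, h2, h3]
    refine ⟨natDegree_mul_le_of_le h4 ih.1, ?_⟩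
    rw [coeff_mul_add_eq_of_natDegree_le h4 ih.1, ih.2]
    congr 1
    have := coeff_pow_of_natDegree_le (m := e) (hlin l)
    rw [mul_one] at this
    rw [this]
    simp

theorem lineHom_eq {σ : Type*} (b w : σ → k) (P : MvPolynomial σ k) :
    lineHom b w P = ∑ m ∈ P.support,
      C (P.coeff m) * m.prod fun l e => (C (b l) + C (w l) * X : k[X]) ^ e := by
  rw [lineHom, MvPolynomial.aeval_def, MvPolynomial.eval₂_eq]
  rfl

theorem natDegree_lineHom_le {σ : Type*} (b w : σ → k) (P : MvPolynomial σ k) :
    (lineHom b w P).natDegree ≤ P.totalDegree := by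
  rw [lineHom_eq]
  refine natDegree_sum_le_of_forall_le _ _ ?_
  intro m hm
  refine (natDegree_C_mul_le _ _).trans ((lineHom_monomial_aux b w m).1.trans ?_)
  exact MvPolynomial.le_totalDegree hm

theorem coeff_lineHom {σ : Type*} (b w : σ → k) (P : MvPolynomial σ k) {d : ℕ}
    (hd : P.totalDegree ≤ d) :
    (lineHom b w P).coeff d = MvPolynomial.eval w (MvPolynomial.homogeneousComponent d P) := by
  classical
  rw [lineHom_eq, MvPolynomial.homogeneousComponent_apply, map_sum, finsetSum_coeff,
    Finset.sum_filter]
  refine Finset.sum_congr rfl fun m hm => ?_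
  have hmd : m.degree ≤ d := (MvPolynomial.le_totalDegree hm).trans hd
  rw [coeff_C_mul]
  split_ifs with h
  · rw [← h, (lineHom_monomial_aux b w m).2, MvPolynomial.eval_monomial]
  · rw [coeff_eq_zero_of_natDegree_lt, mul_zero]
    exact lt_of_le_of_lt (lineHom_monomial_aux b w m).1 (lt_of_le_of_ne hmd h)

end PGL33
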