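import Mathlib
import Pool.Agent.Helper33_PGL.Subst

/-!
# A linear change of coordinates
-/

open Polynomial

universe u v

namespace PGL33

variable {k : Type u} [Field k]

theorem totalDegree_aeval_le {σ τ : Type*} (f : σ → MvPolynomial τ k)
    (hf : ∀ l, (f l).totalDegree ≤ 1) (P : MvPolynomial σ k) :
    (MvPolynomial.aeval f P).totalDegree ≤ P.totalDegree := by
  classical
  rw [MvPolynomial.aeval_def, MvPolynomial.eval₂_eq]
  refine (MvPolynomial.totalDegree_finsetSum _ _).trans (Finset.sup_le fun m hm => ?_)
  refine (MvPolynomial.totalDegree_mul _ _).trans ?_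
  have h1 : (algebraMap k (MvPolynomial τ k) (MvPolynomial.coeff m P)).totalDegree = 0 :=
    MvPolynomial.totalDegree_C _
  rw [h1, zero_add]
  refine (MvPolynomial.totalDegree_finsetProd _ _).trans ?_
  refine le_trans ?_ (MvPolynomial.le_totalDegree hm)
  refine Finset.sum_le_sum fun l _ => ?_
  refine (MvPolynomial.totalDegree_pow _ _).trans ?_
  calc m l * (f l).totalDegree ≤ m l * 1 := Nat.mul_le_mul_left _ (hf l)
    _ = m l := mul_one _

/-- the linear forms of the change of coordinates -/
noncomputable def chg {A : Type*} [CommRing A] [Algebra k A] {v : ℕ} (w : Fin (v + 1) → k)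
    (z : Fin (v + 1) → A) (l : Fin (v + 1)) : A :=
  Fin.lastCases (motive := fun _ => A) 0 (fun i => z i.castSucc) l +
    algebraMap k A (w l) * z (Fin.last v)

theorem chg_castSucc {A : Type*} [CommRing A] [Algebra k A] {v : ℕ} (w : Fin (v + 1) → k)
    (z : Fin (v + 1) → A) (i : Fin v) : chg w z i.castSucc =
      z i.castSucc + algebraMap k A (w i.castSucc) * z (Fin.last v) := by
  simp [chg]

theorem chg_last {A : Type*} [CommRing A] [Algebra k A] {v : ℕ} (w : Fin (v + 1) → k)
    (z : Fin (v + 1) → A) : chg w z (Fin.last v) =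
      algebraMap k A (w (Fin.last v)) * z (Fin.last v) := by
  simp [chg]

/-- the polynomial in the new coordinates -/
noncomputable def chgPoly {v : ℕ} (w : Fin (v + 1) → k) (c : MvPolynomial (Fin (v + 1)) k) :
    MvPolynomial (Fin (v + 1)) k := MvPolynomial.aeval (chg w MvPolynomial.X) c

theorem map_chg {A B : Type*} [CommRing A] [Algebra k A] [CommRing B] [Algebra k B] {v : ℕ}
    (φ : A →ₐ[k] B) (w : Fin (v + 1) → k) (z : Fin (v + 1) → A) (l : Fin (v + 1)) :
    φ (chg w z l) = chg w (fun i => φ (z i)) l := by
  induction l using Fin.lastCases with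
  | last => rw [chg_last, chg_last]; simp
  | cast i => rw [chg_castSucc, chg_castSucc]; simp

theorem aeval_chgPoly {A : Type*} [CommRing A] [Algebra k A] {v : ℕ} (w : Fin (v + 1) → k)
    (c : MvPolynomial (Fin (v + 1)) k) (z : Fin (v + 1) → A) :
    MvPolynomial.aeval z (chgPoly w c) = MvPolynomial.aeval (chg w z) c := by
  unfold chgPoly
  have : (MvPolynomial.aeval z).comp (MvPolynomial.aeval (chg w MvPolynomial.X)) =
      (MvPolynomial.aeval (chg w z) : MvPolynomial (Fin (v + 1)) k →ₐ[k] A) := by
    apply MvPolynomial.algHom_ext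
    intro l
    simp only [AlgHom.comp_apply, MvPolynomial.aeval_X]
    rw [map_chg]
    simp
  exact DFunLike.congr_fun this c

theorem totalDegree_chgPoly_le {v : ℕ} (w : Fin (v + 1) → k) (c : MvPolynomial (Fin (v + 1)) k) :
    (chgPoly w c).totalDegree ≤ c.totalDegree := by
  refine totalDegree_aeval_le _ (fun l => ?_) c
  induction l using Fin.lastCases with
  | last =>
    rw [chg_last]
    refine (MvPolynomial.totalDegree_mul _ _).trans ?_
    have : (algebraMap k (MvPolynomial (Fin (v + 1)) k) (w (Fin.last v))).totalDegree = 0 :=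
      MvPolynomial.totalDegree_C _
    rw [this, zero_add]
    exact (MvPolynomial.totalDegree_X _).le
  | cast i =>
    rw [chg_castSucc]
    refine (MvPolynomial.totalDegree_add _ _).trans (max_le (MvPolynomial.totalDegree_X _).le ?_)
    refine (MvPolynomial.totalDegree_mul _ _).trans ?_
    have : (algebraMap k (MvPolynomial (Fin (v + 1)) k) (w i.castSucc)).totalDegree = 0 :=
      MvPolynomial.totalDegree_C _
    rw [this, zero_add]
    exact (MvPolynomial.totalDegree_X _).le

theorem eval_single_one_homogeneousComponent {σ : Type*} [DecidableEq σ] [Fintype σ] (i : σ)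
    (P : MvPolynomial σ k) (d : ℕ) :
    MvPolynomial.eval (Pi.single i 1) (MvPolynomial.homogeneousComponent d P) =
      P.coeff (Finsupp.single i d) := by
  rw [MvPolynomial.homogeneousComponent_apply, map_sum, Finset.sum_filter]
  by_cases h : Finsupp.single i d ∈ P.support
  · rw [Finset.sum_eq_single_of_mem _ h]
    · rw [if_pos (by simp), MvPolynomial.eval_monomial, Finsupp.prod_single_index (by simp)]
      simp
    · intro m hm hne
      split_ifs with hd
      · rw [MvPolynomial.eval_monomial]
        have : ∃ j, j ≠ i ∧ m j ≠ 0 := by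
          by_contra hcon
          push Not at hcon
          apply hne
          have hm' : m = Finsupp.single i (m i) := by
            ext j
            by_cases hj : j = i
            · subst hj; simp
            · rw [hcon j hj, Finsupp.single_eq_of_ne hj]
          rw [hm'] at hd ⊢
          rw [Finsupp.degree_single] at hd
          rw [hd]
        obtain ⟨j, hj, hmj⟩ := this
        rw [Finsupp.prod, Finset.prod_eq_zero (i := j)]
        · simp
        · simpa using hmj
        · rw [Pi.single_eq_of_ne hj, zero_pow hmj]
      · rfl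
  · rw [MvPolynomial.notMem_support_iff.1 h]
    refine Finset.sum_eq_zero fun m hm => ?_
    split_ifs with hd
    · rw [MvPolynomial.eval_monomial]
      have : ∃ j, j ≠ i ∧ m j ≠ 0 := by
        by_contra hcon
        push Not at hcon
        apply h
        have hm' : m = Finsupp.single i (m i) := by
          ext j
          by_cases hj : j = i
          · subst hj; simp
          · rw [hcon j hj, Finsupp.single_eq_of_ne hj]
        rw [hm', Finsupp.degree_single] at hd
        rw [← hd, ← hm']
        exact hm
      obtain ⟨j, hj, hmj⟩ := this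
      rw [Finsupp.prod, Finset.prod_eq_zero (i := j)]
      · simp
      · simpa using hmj
      · rw [Pi.single_eq_of_ne hj, zero_pow hmj]
    · rfl

theorem map_homogeneousComponent {σ : Type*} {Ω : Type*} [Field Ω] (f : k →+* Ω)
    (P : MvPolynomial σ k) (d : ℕ) : MvPolynomial.homogeneousComponent d (MvPolynomial.map f P) =
      MvPolynomial.map f (MvPolynomial.homogeneousComponent d P) := by
  ext m
  rw [MvPolynomial.coeff_homogeneousComponent, MvPolynomial.coeff_map, MvPolynomial.coeff_map,
    MvPolynomial.coeff_homogeneousComponent]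
  split_ifs <;> simp

/-- The polynomial in one variable of the restriction to a line over a bigger field. -/
theorem exists_line_poly {v : ℕ} (c : MvPolynomial (Fin (v + 1)) k) (w : Fin (v + 1) → k)
    (hw : MvPolynomial.eval w (MvPolynomial.homogeneousComponent c.totalDegree c) ≠ 0)
    (Ω : Type*) [Field Ω] [Algebra k Ω] (b : Fin (v + 1) → Ω) :
    ∃ q : Polynomial Ω, q ≠ 0 ∧ q.natDegree ≤ c.totalDegree ∧ ∀ z : Ω,
      q.eval z = MvPolynomial.aeval (fun l => b l + algebraMap k Ω (w l) * z) c := by
  have hdeg : (MvPolynomial.map (algebraMap k Ω) c).totalDegree ≤ c.totalDegree := by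
    refine Finset.sup_mono (MvPolynomial.support_map_subset _ _)
  refine ⟨lineHom b (fun l => algebraMap k Ω (w l)) (MvPolynomial.map (algebraMap k Ω) c),
    ?_, ?_, ?_⟩
  · intro h
    have h1 := coeff_lineHom b (fun l => algebraMap k Ω (w l)) _ hdeg
    rw [h, coeff_zero, map_homogeneousComponent] at h1
    apply hw
    apply (algebraMap k Ω).injective
    rw [map_zero, h1, MvPolynomial.eval_map]
    rw [← MvPolynomial.eval₂_id, MvPolynomial.hom_eval₂]
    rfl
  · exact (natDegree_lineHom_le _ _ _).trans hdeg
  · intro z
    unfold lineHom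
    rw [MvPolynomial.aeval_map_algebraMap, ← Polynomial.coe_evalRingHom]
    rw [MvPolynomial.aeval_def, MvPolynomial.aeval_def, MvPolynomial.hom_eval₂]
    congr 1
    · ext a
      simp [Polynomial.algebraMap_apply]
    · funext l
      simp

/-- a good change of coordinates -/
theorem exists_change [Infinite k] {v : ℕ} (c : MvPolynomial (Fin (v + 1)) k) (hc : c ≠ 0) :
    ∃ w : Fin (v + 1) → k, w (Fin.last v) ≠ 0 ∧
      MvPolynomial.eval w (MvPolynomial.homogeneousComponent c.totalDegree c) ≠ 0 ∧
      (chgPoly w c).coeff (Finsupp.single (Fin.last v) c.totalDegree) ≠ 0 := by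
  have hne : MvPolynomial.homogeneousComponent c.totalDegree c ≠ 0 := by
    intro h
    have hsupp : c.support.Nonempty := by
      rw [Finset.nonempty_iff_ne_empty]
      intro h'
      exact hc (MvPolynomial.support_eq_empty.1 h')
    obtain ⟨m, hm, hmd⟩ := Finset.exists_mem_eq_sup c.support hsupp (fun s => s.sum fun _ e => e)
    have h2 := MvPolynomial.coeff_homogeneousComponent (c.totalDegree) c m
    rw [h, MvPolynomial.coeff_zero, if_pos] at h2
    · exact (MvPolynomial.mem_support_iff.1 hm) h2.symm
    · exact hmd.symm
  have hne2 : MvPolynomial.homogeneousComponent c.totalDegree c *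
      MvPolynomial.X (Fin.last v) ≠ 0 := mul_ne_zero hne (MvPolynomial.X_ne_zero _)
  obtain ⟨w, hw⟩ : ∃ w, MvPolynomial.eval w (MvPolynomial.homogeneousComponent c.totalDegree c *
      MvPolynomial.X (Fin.last v)) ≠ 0 := by
    by_contra hcon
    push Not at hcon
    apply hne2
    apply MvPolynomial.funext
    intro x
    rw [hcon x, map_zero]
  rw [map_mul, MvPolynomial.eval_X] at hw
  have hw1 := left_ne_zero_of_mul hw
  have hw2 := right_ne_zero_of_mul hw
  refine ⟨w, hw2, hw1, ?_⟩
  · classical
    rw [← eval_single_one_homogeneousComponent, ← coeff_lineHom 0 _ _ (totalDegree_chgPoly_le w c)]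
    have : lineHom 0 (Pi.single (Fin.last v) 1) (chgPoly w c) = lineHom 0 w c := by
      unfold lineHom
      rw [aeval_chgPoly]
      congr 2
      funext l
      induction l using Fin.lastCases with
      | last => rw [chg_last]; simp
      | cast i => rw [chg_castSucc]; simp
    rw [this, coeff_lineHom 0 w c le_rfl]
    exact hw1

end PGL33
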