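import Mathlib
import Pool.Agent.Helper11_PGL.StmtT
import Pool.Agent.Helper33_PGL.Change

/-!
# CASETWO: a component of a hypersurface section containing many points
-/

open PGH Polynomial PGL

universe u v

namespace PGL33

section lin

variable {k : Type*} [Field k]

theorem lin_map {A B ι : Type*} [CommRing A] [Algebra k A] [CommRing B] [Algebra k B] [Fintype ι]
    (φ : A →ₐ[k] B) (c : ι → k) (x : ι → A) : φ (lin c x) = lin c (fun j => φ (x j)) := by
  simp [lin]

/-- the new linear forms -/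
def newForm {ν v : ℕ} (w : Fin (v + 1) → k) (α : Fin (v + 1) → Fin ν → k) (i : Fin v)
    (j : Fin ν) : k :=
  α i.castSucc j - w i.castSucc / w (Fin.last v) * α (Fin.last v) j

theorem lin_newForm {A : Type*} [CommRing A] [Algebra k A] {ν v : ℕ} (w : Fin (v + 1) → k)
    (α : Fin (v + 1) → Fin ν → k) (x : Fin ν → A) (i : Fin v) :
    lin (newForm w α i) x = lin (α i.castSucc) x -
      algebraMap k A (w i.castSucc / w (Fin.last v)) * lin (α (Fin.last v)) x := by
  unfold lin newForm
  rw [Finset.mul_sum, ← Finset.sum_sub_distrib]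
  refine Finset.sum_congr rfl fun j _ => ?_
  rw [map_sub, map_mul]
  ring

/-- the new coordinates -/
def newY {A : Type*} [CommRing A] [Algebra k A] {v : ℕ} (w : Fin (v + 1) → k)
    (y : Fin (v + 1) → A) (l : Fin (v + 1)) : A :=
  Fin.lastCases (motive := fun _ => A) (algebraMap k A (w (Fin.last v))⁻¹ * y (Fin.last v))
    (fun i => y i.castSucc - algebraMap k A (w i.castSucc / w (Fin.last v)) * y (Fin.last v)) l

theorem newY_last {A : Type*} [CommRing A] [Algebra k A] {v : ℕ} (w : Fin (v + 1) → k)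
    (y : Fin (v + 1) → A) : newY w y (Fin.last v) =
      algebraMap k A (w (Fin.last v))⁻¹ * y (Fin.last v) := by
  simp [newY]

theorem newY_castSucc {A : Type*} [CommRing A] [Algebra k A] {v : ℕ} (w : Fin (v + 1) → k)
    (y : Fin (v + 1) → A) (i : Fin v) : newY w y i.castSucc =
      y i.castSucc - algebraMap k A (w i.castSucc / w (Fin.last v)) * y (Fin.last v) := by
  simp [newY]

theorem chg_newY {A : Type*} [CommRing A] [Algebra k A] {v : ℕ} (w : Fin (v + 1) → k)
    (hw : w (Fin.last v) ≠ 0) (y : Fin (v + 1) → A) : chg w (newY w y) = y := by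
  funext l
  induction l using Fin.lastCases with
  | last =>
    rw [chg_last, newY_last, ← mul_assoc, ← map_mul, mul_inv_cancel₀ hw, map_one, one_mul]
  | cast i =>
    rw [chg_castSucc, newY_last, newY_castSucc, ← mul_assoc, ← map_mul, ← div_eq_mul_inv]
    ring

end lin

/-- The number of homomorphisms with given values of the new coordinates which kill the
hypersurface section. -/
theorem encard_section {k A : Type u} [Field k] [CommRing A] [Algebra k A] {ν v D : ℕ}
    {x : Fin ν → A} {α : Fin (v + 1) → Fin ν → k} (hV : VarD k ν (v + 1) D A x α)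
    (c : MvPolynomial (Fin (v + 1)) k) (w : Fin (v + 1) → k) (hw0 : w (Fin.last v) ≠ 0)
    (hw : MvPolynomial.eval w (MvPolynomial.homogeneousComponent c.totalDegree c) ≠ 0)
    (Ω : Type u) [Field Ω] [Algebra k Ω] (η : Fin v → Ω) :
    {χ : A →ₐ[k] Ω | (∀ i, χ (lin (newForm w α i) x) = η i) ∧
      χ (MvPolynomial.aeval (fun l => lin (α l) x) c) = 0}.encard ≤
        (D * c.totalDegree : ℕ) := by
  classical
  set b : Fin (v + 1) → Ω := fun l => Fin.lastCases (motive := fun _ => Ω) 0 η l with hb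
  obtain ⟨q, hq0, hqd, hq⟩ := exists_line_poly c w hw Ω b
  set y : Fin (v + 1) → A := fun l => lin (α l) x with hy
  have hsub : {χ : A →ₐ[k] Ω | (∀ i, χ (lin (newForm w α i) x) = η i) ∧
      χ (MvPolynomial.aeval y c) = 0} ⊆
      ⋃ z ∈ q.roots.toFinset, {χ : A →ₐ[k] Ω | ∀ l, χ (lin (α l) x) =
        b l + algebraMap k Ω (w l) * z} := by
    rintro χ ⟨h1, h2⟩
    have hval : ∀ l, χ (y l) = b l + algebraMap k Ω (w l) * χ (newY w y (Fin.last v)) := by
      intro l
      conv_lhs => rw [← chg_newY w hw0 y]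
      induction l using Fin.lastCases with
      | last => rw [chg_last]; simp [hb]
      | cast i =>
        rw [chg_castSucc, map_add, map_mul, AlgHom.commutes, newY_castSucc]
        rw [hy, ← lin_newForm, h1 i]
        simp [hb]
    simp only [Set.mem_iUnion]
    refine ⟨χ (newY w y (Fin.last v)), ?_, fun l => hval l⟩
    rw [Multiset.mem_toFinset, mem_roots hq0, IsRoot.def, hq, ← h2,
      MvPolynomial.comp_aeval_apply]
    congr 2
    funext l
    exact (hval l).symm
  refine (Set.encard_le_encard hsub).trans ?_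
  refine (Finset.set_encard_biUnion_le _ _).trans ?_
  refine (Finset.sum_le_sum fun z _ => hV.deg Ω _).trans ?_
  rw [Finset.sum_const, nsmul_eq_mul]
  have h3 : q.roots.toFinset.card ≤ c.totalDegree :=
    (Multiset.toFinset_card_le _).trans ((card_roots' q).trans hqd)
  calc ((q.roots.toFinset.card : ℕ) : ℕ∞) * (D : ℕ∞) ≤ ((c.totalDegree : ℕ) : ℕ∞) * (D : ℕ∞) := by
        gcongr
    _ = ((D * c.totalDegree : ℕ) : ℕ∞) := by push_cast; ring

/-- Elements of the quotient which are integral. -/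
theorem homInt_quot (hH : HomIntRules.{u}) {k A : Type u} [Field k] [CommRing A] [Algebra k A]
    {ν v D : ℕ}
    {x : Fin ν → A} {α : Fin (v + 1) → Fin ν → k} (hV : VarD k ν (v + 1) D A x α)
    (c : MvPolynomial (Fin (v + 1)) k) (w : Fin (v + 1) → k) (hw0 : w (Fin.last v) ≠ 0)
    (hc1 : 1 ≤ c.totalDegree)
    (hw : (chgPoly w c).coeff (Finsupp.single (Fin.last v) c.totalDegree) ≠ 0)
    (B : Type u) [CommRing B] [Algebra k B] (φ : A →ₐ[k] B)
    (hφ : φ (MvPolynomial.aeval (fun l => lin (α l) x) c) = 0) (j : Fin ν) :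
    HomInt k (fun i => lin (newForm w α i) (fun j => φ (x j))) (φ (x j)) := by
  set y : Fin (v + 1) → A := fun l => lin (α l) x with hy
  set z : Fin (v + 1) → B := fun l => φ (newY w y l) with hz
  have hz1 : (fun i => lin (newForm w α i) (fun j => φ (x j))) = fun i : Fin v => z i.castSucc := by
    funext i
    rw [hz, ← lin_map, lin_newForm]
    simp only [newY_castSucc, hy]
  rw [hz1]
  have hz2 : ∀ l, φ (y l) = chg w z l := by
    intro l
    conv_lhs => rw [← chg_newY w hw0 y]
    rw [map_chg]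
  have h1 : HomInt k (fun i : Fin v => z i.castSucc) (z (Fin.last v)) := by
    refine hH.monic k B v c.totalDegree z (chgPoly w c) (totalDegree_chgPoly_le w c) hw ?_ hc1
    rw [aeval_chgPoly, ← hφ, MvPolynomial.comp_aeval_apply]
    congr 2
    funext l
    exact (hz2 l).symm
  refine hH.trans k B (Fin (v + 1)) (Fin v) (fun l => φ (y l)) _ _
    (hH.map k A B (Fin (v + 1)) φ y (x j) (hV.int j)) (fun l => ?_)
  rw [hz2]
  induction l using Fin.lastCases with
  | last => rw [chg_last]; exact hH.smul _ _ _ _ _ _ h1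
  | cast i =>
    rw [chg_castSucc]
    exact hH.add _ _ _ _ _ _ (hH.self k B (Fin v) (fun i => z i.castSucc) i)
      (hH.smul _ _ _ _ _ _ h1)

theorem adjoin_quot {k A B : Type*} [Field k] [CommRing A] [Algebra k A] [CommRing B]
    [Algebra k B] {ι : Type*} (x : ι → A) (h : Algebra.adjoin k (Set.range x) = ⊤) (φ : A →ₐ[k] B)
    (hφ : Function.Surjective φ) : Algebra.adjoin k (Set.range fun j => φ (x j)) = ⊤ := by
  have h1 : (Set.range fun j => φ (x j)) = φ '' Set.range x := by
    rw [← Set.range_comp]; rfl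
  rw [h1, ← AlgHom.map_adjoin, h, Algebra.map_top]
  exact (AlgHom.range_eq_top φ).2 hφ

theorem isIntegral_of_gen {k B : Type*} [Field k] [CommRing B] [Algebra k B] {ι κ : Type*}
    (x : ι → B) (y : κ → B) (h : Algebra.adjoin k (Set.range x) = ⊤)
    (hx : ∀ j, IsIntegral (Algebra.adjoin k (Set.range y)) (x j)) (a : B) :
    IsIntegral (Algebra.adjoin k (Set.range y)) a := by
  have ha : a ∈ Algebra.adjoin k (Set.range x) := by rw [h]; trivial
  induction ha using Algebra.adjoin_induction with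
  | mem a ha => obtain ⟨j, rfl⟩ := ha; exact hx j
  | algebraMap r =>
    have : algebraMap k B r = algebraMap (Algebra.adjoin k (Set.range y)) B
      (algebraMap k _ r) := rfl
    rw [this]
    exact isIntegral_algebraMap
  | add a b _ _ ha hb => exact ha.add hb
  | mul a b _ _ ha hb => exact ha.mul hb

/-- the new coordinates are independent on a component -/
theorem indep_quot (hGd : GdStmt.{u}) (hH : HomIntRules.{u}) {k A : Type u} [Field k]
    [IsAlgClosed k] [CommRing A] [Algebra k A] {ν v D : ℕ}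
    {x : Fin ν → A} {α : Fin (v + 1) → Fin ν → k} (hV : VarD k ν (v + 1) D A x α)
    (c : MvPolynomial (Fin (v + 1)) k) (hc : c ≠ 0) (w : Fin (v + 1) → k)
    (hw0 : w (Fin.last v) ≠ 0)
    (hw : MvPolynomial.eval w (MvPolynomial.homogeneousComponent c.totalDegree c) ≠ 0)
    (𝔭 : Ideal A)
    (h𝔭 : 𝔭 ∈ (Ideal.span {MvPolynomial.aeval (fun l => lin (α l) x) c}).minimalPrimes) :
    AlgebraicIndependent k
      (fun i => lin (newForm w α i) (fun j => Ideal.Quotient.mkₐ k 𝔭 (x j))) := by
  classical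
  have := hV.dom
  have hft : Algebra.FiniteType k A := by
    refine ⟨⟨Finset.univ.image x, ?_⟩⟩
    rw [Finset.coe_image, Finset.coe_univ, Set.image_univ]
    exact hV.gen
  obtain ⟨-, hgd⟩ := hGd k (v + 1) A (fun l => lin (α l) x) hft hV.indep
    (fun a => isIntegral_of_gen x _ hV.gen (fun j => hH.isIntegral _ _ _ _ _ (hV.int j)) a)
  obtain ⟨c₁, hc₁, ⟨c₂, hc₂⟩, hF⟩ := hgd c 𝔭 hc h𝔭
  have hc₁0 : c₁ ≠ 0 := hc₁.ne_zero
  have hc₂0 : c₂ ≠ 0 := by rintro rfl; exact hc (by rw [hc₂, mul_zero])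
  have hdeg : c.totalDegree = c₁.totalDegree + c₂.totalDegree := by
    rw [hc₂, MvPolynomial.totalDegree_mul_of_isDomain hc₁0 hc₂0]
  have hc₁d : c₁.totalDegree ≠ 0 := by
    intro h0
    rw [MvPolynomial.totalDegree_eq_zero_iff_eq_C] at h0
    apply hc₁.not_isUnit
    rw [h0]
    have : MvPolynomial.coeff 0 c₁ ≠ 0 := by
      intro h1
      rw [h1, map_zero] at h0
      exact hc₁0 h0
    exact (isUnit_iff_ne_zero.2 this).map MvPolynomial.C
  rw [algebraicIndependent_iff]
  intro F hF0
  by_contra hFne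
  obtain ⟨a, ha⟩ : ∃ a, MvPolynomial.eval a F ≠ 0 := by
    by_contra hcon
    push Not at hcon
    apply hFne
    apply MvPolynomial.funext
    intro x
    rw [hcon x, map_zero]
  set F' : MvPolynomial (Fin (v + 1)) k := MvPolynomial.aeval
    (fun i : Fin v => (MvPolynomial.X i.castSucc : MvPolynomial (Fin (v + 1)) k) -
      MvPolynomial.C (w i.castSucc / w (Fin.last v)) * MvPolynomial.X (Fin.last v)) F with hF'
  have hmem : MvPolynomial.aeval (fun l => lin (α l) x) F' ∈ 𝔭 := by
    rw [← Ideal.Quotient.eq_zero_iff_mem, ← Ideal.Quotient.mkₐ_eq_mk k, ← hF0, hF',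
      MvPolynomial.comp_aeval_apply, MvPolynomial.comp_aeval_apply]
    congr 2
    funext i
    rw [← lin_map, lin_newForm]
    simp
  have hdvd := hF F' hmem
  obtain ⟨G, hG⟩ := hdvd
  set b : Fin (v + 1) → k := fun l => Fin.lastCases (motive := fun _ => k) 0 a l with hb
  have hL : lineHom b w F' = C (MvPolynomial.eval a F) := by
    rw [hF', MvPolynomial.comp_aeval_apply]
    have h1 : (fun i : Fin v => lineHom b w ((MvPolynomial.X i.castSucc :
        MvPolynomial (Fin (v + 1)) k) -
        MvPolynomial.C (w i.castSucc / w (Fin.last v)) * MvPolynomial.X (Fin.last v))) =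
        fun i => C (a i) := by
      funext i
      rw [map_sub, map_mul]
      have h2 : lineHom b w (MvPolynomial.C (w i.castSucc / w (Fin.last v))) =
          C (w i.castSucc / w (Fin.last v)) := by
        unfold lineHom
        rw [MvPolynomial.aeval_C]
        rfl
      rw [h2]
      unfold lineHom
      rw [MvPolynomial.aeval_X, MvPolynomial.aeval_X]
      have h3 : w i.castSucc = w i.castSucc / w (Fin.last v) * w (Fin.last v) := by
        rw [div_mul_cancel₀ _ hw0]
      simp only [hb, Fin.lastCases_castSucc, Fin.lastCases_last, map_zero, zero_add]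
      conv_lhs => rw [h3]
      rw [← mul_assoc, ← C_mul]
      simp [div_mul_cancel₀ _ hw0]
    rw [h1, MvPolynomial.aeval_def, ← MvPolynomial.eval₂_id, MvPolynomial.hom_eval₂]
    rfl
  rw [hG, map_mul] at hL
  have hCne : (C (MvPolynomial.eval a F) : k[X]) ≠ 0 := by simpa using ha
  have hne1 : lineHom b w c₁ ≠ 0 := by
    intro h
    rw [h, zero_mul] at hL
    exact hCne hL.symm
  have hne2 : lineHom b w G ≠ 0 := by
    intro h
    rw [h, mul_zero] at hL
    exact hCne hL.symm
  have hd0 : (lineHom b w c₁).natDegree = 0 := by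
    have := congrArg natDegree hL
    rw [natDegree_mul hne1 hne2, natDegree_C] at this
    omega
  have hcoef : (lineHom b w c).coeff c.totalDegree ≠ 0 := by
    rw [coeff_lineHom b w c le_rfl]; exact hw
  have hle := le_natDegree_of_ne_zero hcoef
  have hle2 : (lineHom b w c).natDegree ≤ (lineHom b w c₁).natDegree +
      (lineHom b w c₂).natDegree := by
    conv_lhs => rw [hc₂, map_mul]
    exact natDegree_mul_le
  have hle3 := natDegree_lineHom_le b w c₂
  omega

/-- a component of the section is a variety of dimension `v` -/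
theorem varD_quot (hGd : GdStmt.{u}) (hH : HomIntRules.{u}) {k A : Type u} [Field k]
    [IsAlgClosed k] [CommRing A] [Algebra k A] {ν v D e : ℕ}
    {x : Fin ν → A} {α : Fin (v + 1) → Fin ν → k} (hV : VarD k ν (v + 1) D A x α)
    (c : MvPolynomial (Fin (v + 1)) k) (hc : c ≠ 0) (hce : c.totalDegree ≤ e)
    (hc1 : 1 ≤ c.totalDegree) (w : Fin (v + 1) → k)
    (hw0 : w (Fin.last v) ≠ 0)
    (hw : MvPolynomial.eval w (MvPolynomial.homogeneousComponent c.totalDegree c) ≠ 0)
    (hw' : (chgPoly w c).coeff (Finsupp.single (Fin.last v) c.totalDegree) ≠ 0)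
    (𝔭 : Ideal A)
    (h𝔭 : 𝔭 ∈ (Ideal.span {MvPolynomial.aeval (fun l => lin (α l) x) c}).minimalPrimes) :
    VarD k ν v (D * e) (A ⧸ 𝔭) (fun j => Ideal.Quotient.mkₐ k 𝔭 (x j)) (newForm w α) := by
  have hprime : 𝔭.IsPrime := h𝔭.1.1
  have hmem : MvPolynomial.aeval (fun l => lin (α l) x) c ∈ 𝔭 :=
    h𝔭.1.2 (Ideal.subset_span rfl)
  have hmem' : Ideal.Quotient.mkₐ k 𝔭 (MvPolynomial.aeval (fun l => lin (α l) x) c) = 0 := by
    rw [Ideal.Quotient.mkₐ_eq_mk, Ideal.Quotient.eq_zero_iff_mem]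
    exact hmem
  refine ⟨inferInstance, adjoin_quot x hV.gen _ (Ideal.Quotient.mkₐ_surjective k 𝔭),
    indep_quot hGd hH hV c hc w hw0 hw 𝔭 h𝔭, fun j =>
      homInt_quot hH hV c w hw0 hc1 hw' _ _ hmem' j, fun Ω _ _ η => ?_⟩
  have h1 := encard_section hV c w hw0 hw Ω η
  have hinj : Function.Injective (fun χ : (A ⧸ 𝔭) →ₐ[k] Ω =>
      χ.comp (Ideal.Quotient.mkₐ k 𝔭)) := by
    intro χ₁ χ₂ h
    apply AlgHom.ext
    intro a
    obtain ⟨a, rfl⟩ := Ideal.Quotient.mkₐ_surjective k 𝔭 a
    exact DFunLike.congr_fun h a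
  rw [← hinj.injOn.encard_image]
  refine (Set.encard_le_encard ?_).trans (h1.trans ?_)
  · rintro _ ⟨χ, hχ, rfl⟩
    refine ⟨fun i => ?_, ?_⟩
    · rw [← hχ i]
      simp only [AlgHom.comp_apply, lin_map]
    · simp only [AlgHom.comp_apply, hmem', map_zero]
  · exact_mod_cast Nat.mul_le_mul_left D hce

/-- CASETWO -/
theorem caseTwo (hGd : GdStmt.{u}) (hH : HomIntStmt.{u}) (hCount : CountStmt.{u}) :
    CaseTwoStmt.{u} := by
  classical
  intro k _ _ _ ν v D e A _ _ x α c S hv hV hc hce hS hp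
  have hdom := hV.dom
  have hft : Algebra.FiniteType k A := by
    refine ⟨⟨Finset.univ.image x, ?_⟩⟩
    rw [Finset.coe_image, Finset.coe_univ, Set.image_univ]
    exact hV.gen
  have hinf : Infinite k := inferInstance
  -- `c` is not constant
  have hc1 : 1 ≤ c.totalDegree := by
    by_contra hcon
    have h0 : c.totalDegree = 0 := by omega
    rw [MvPolynomial.totalDegree_eq_zero_iff_eq_C] at h0
    obtain ⟨p, hpS⟩ := hS
    have h1 := (hp p hpS).2
    rw [h0, MvPolynomial.eval_C] at h1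
    rw [h1, map_zero] at h0
    exact hc h0
  obtain ⟨w, hw0, hw, hw'⟩ := exists_change c hc
  set y : Fin (v + 1) → A := fun l => lin (α l) x with hy
  have hnoeth : IsNoetherianRing A := Algebra.FiniteType.isNoetherianRing k A
  have hfin : (Ideal.span {MvPolynomial.aeval y c}).minimalPrimes.Finite :=
    Ideal.finite_minimalPrimes_of_isNoetherianRing A _
  set s : Finset (Ideal A) := hfin.toFinset with hs
  have hvar : ∀ 𝔭 ∈ s, VarD k ν v (D * e) (A ⧸ 𝔭) (fun j => Ideal.Quotient.mkₐ k 𝔭 (x j))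
      (newForm w α) := fun 𝔭 h𝔭 =>
    varD_quot hGd hH hV c hc hce hc1 w hw0 hw hw' 𝔭 (hfin.mem_toFinset.1 h𝔭)
  -- the number of components
  have hcard : s.card ≤ D * e := by
    obtain ⟨d, hd1, hd2⟩ := hCount k A v (fun i => lin (newForm w α i) x) s (D * e) (by
      intro 𝔭 h𝔭
      have h1 := hvar 𝔭 h𝔭
      have h2 : (fun l => Ideal.Quotient.mk 𝔭 (lin (newForm w α l) x)) =
          fun i => lin (newForm w α i) (fun j => Ideal.Quotient.mkₐ k 𝔭 (x j)) := by
        funext i
        rw [← lin_map, Ideal.Quotient.mkₐ_eq_mk]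
      refine ⟨(hfin.mem_toFinset.1 h𝔭).1.1, ?_, ?_⟩
      · rw [h2]; exact h1.indep
      · rw [h2]
        exact fun a => isIntegral_of_gen _ _ h1.gen
          (fun j => hH.isIntegral _ _ _ _ _ (h1.int j)) a) (by
      intro Ω _ _ η
      refine (Set.encard_le_encard ?_).trans ((encard_section hV c w hw0 hw Ω η).trans ?_)
      · rintro χ ⟨h1, 𝔭, h𝔭, h2⟩
        exact ⟨h1, h2 _ ((hfin.mem_toFinset.1 h𝔭).1.2 (Ideal.subset_span rfl))⟩
      · exact_mod_cast Nat.mul_le_mul_left D hce)
    calc s.card = ∑ 𝔭 ∈ s, 1 := by simp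
      _ ≤ ∑ 𝔭 ∈ s, d 𝔭 := Finset.sum_le_sum fun 𝔭 h𝔭 => (hd2 𝔭 h𝔭).1
      _ ≤ D * e := hd1
  -- every point is on a component
  have hpt : ∀ p ∈ S, ∃ 𝔭 ∈ s, OnVar k (fun j => Ideal.Quotient.mkₐ k 𝔭 (x j)) p := by
    intro p hpS
    obtain ⟨⟨χ, hχ⟩, h0⟩ := hp p hpS
    have hker : Ideal.span {MvPolynomial.aeval y c} ≤ RingHom.ker χ := by
      have h1 : (fun l => χ (y l)) = fun l => lin (α l) p := by
        funext l
        rw [hy, lin_map]
        congr 1
        funext j
        exact hχ j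
      rw [Ideal.span_singleton_le_iff_mem, RingHom.mem_ker, MvPolynomial.comp_aeval_apply, h1,
        ← h0]
      exact DFunLike.congr_fun (MvPolynomial.coe_aeval_eq_eval (fun l => lin (α l) p)) c
    have hkp : (RingHom.ker χ).IsPrime := RingHom.ker_isPrime _
    obtain ⟨𝔭, h𝔭, hle⟩ := Ideal.exists_minimalPrimes_le hker
    refine ⟨𝔭, hfin.mem_toFinset.2 h𝔭, Ideal.Quotient.liftₐ 𝔭 χ (fun a ha => hle ha), fun j => ?_⟩
    rw [← hχ j]
    rfl
  choose! f hf1 hf2 using hpt
  -- pigeonhole
  obtain ⟨𝔭, h𝔭, hbig⟩ : ∃ 𝔭 ∈ s, S.card ≤ D * e * (S.filter (fun p => f p = 𝔭)).card := by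
    by_contra hcon
    push Not at hcon
    have h1 : S.card = ∑ 𝔭 ∈ s, (S.filter (fun p => f p = 𝔭)).card :=
      Finset.card_eq_sum_card_fiberwise hf1
    have hsne : s.Nonempty := by
      obtain ⟨p, hpS⟩ := hS
      exact ⟨_, hf1 p hpS⟩
    have h2 : ∑ 𝔭 ∈ s, D * e * (S.filter (fun p => f p = 𝔭)).card < ∑ 𝔭 ∈ s, S.card :=
      Finset.sum_lt_sum_of_nonempty hsne hcon
    rw [← Finset.mul_sum, ← h1, Finset.sum_const, smul_eq_mul] at h2
    have h3 : s.card * S.card ≤ D * e * S.card := Nat.mul_le_mul_right _ hcard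
    omega
  refine ⟨A ⧸ 𝔭, inferInstance, inferInstance, fun j => Ideal.Quotient.mkₐ k 𝔭 (x j),
    newForm w α, S.filter (fun p => f p = 𝔭), hvar 𝔭 h𝔭, Finset.filter_subset _ _, ?_, hbig⟩
  intro p hpS
  rw [Finset.mem_filter] at hpS
  have := hf2 p hpS.1
  rw [hpS.2] at this
  exact this

end PGL33
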